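import Pool.Agent.H412.EqN.Main

/-!
Equational Noetherianity of free associative algebras for tuples with boundedly many homogeneous
components.

The proof attaches to every element of the free algebra an operator on a polynomial ring with a
shift endomorphism, replaces the unknown homogeneous components by difference indeterminates, and
uses a basis theorem for perfect ideals in finitely many difference indeterminates over several
commuting endomorphisms.
-/

set_option autoImplicit false

namespace Pool.Agent.Results.MP_0cf807_al.GradedTuples

/-- The weight of the letter `x`, whose multidegree is `μ x`, for the linear form `ω`. -/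
def letterWeight {X : Type} {q : ℕ} (μ : X → Fin q → ℕ) (ω : Fin q → ℕ) (x : X) : ℕ :=
  ∑ j, μ x j * ω j

/-- The `K`-span of all words of total weight `d` in the free algebra, where `wt x` is the weight
of the letter `x`. -/
def homogeneousPart (K : Type) [Field K] {X : Type} (wt : X → ℕ) (d : ℕ) :
    Submodule K (FreeAlgebra K X) :=
  Submodule.span K {a | ∃ l : List X, (l.map wt).sum = d ∧ a = (l.map (FreeAlgebra.ι K)).prod}

/-- The element `a` is a sum of `m` elements, each of which is homogeneous for the weight `wt`. -/
def IsSumOfHomogeneous (K : Type) [Field K] {X : Type} (wt : X → ℕ) (m : ℕ)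
    (a : FreeAlgebra K X) : Prop :=
  ∃ z : Fin m → FreeAlgebra K X, (∀ j, ∃ d, z j ∈ homogeneousPart K wt d) ∧ a = ∑ j, z j

/-- For every field `K`, every set `X`, all `n`, `m` and every system `S` of equations in `n`
variables with constants from the free algebra `K⟨X⟩` there is a finite subsystem `S₀` such that
every tuple of elements of `K⟨X⟩` that solves `S₀`, each of whose coordinates is a sum of at most
`m` homogeneous elements, solves `S`. Here `S₀` serves at once for all gradings given by linear
forms `ω` of a fixed multidegree `μ` that give weight zero to at most one letter. -/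
theorem result (K : Type) [Field K] (X : Type) (n m q : ℕ) (μ : X → Fin q → ℕ)
    (S : Set (FreeAlgebra ℤ (FreeAlgebra K X ⊕ Fin n))) :
    ∃ S₀ : Finset (FreeAlgebra ℤ (FreeAlgebra K X ⊕ Fin n)),
      (↑S₀ : Set (FreeAlgebra ℤ (FreeAlgebra K X ⊕ Fin n))) ⊆ S ∧
      ∀ ω : Fin q → ℕ,
        (∀ s t : X, letterWeight μ ω s = 0 → letterWeight μ ω t = 0 → s = t) →
        ∀ x : Fin n → FreeAlgebra K X,
          (∀ i, IsSumOfHomogeneous K (letterWeight μ ω) m (x i)) →
          (∀ p ∈ S₀, FreeAlgebra.lift ℤ (Sum.elim (fun r : FreeAlgebra K X => r) x) p = 0) →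
          ∀ p ∈ S, FreeAlgebra.lift ℤ (Sum.elim (fun r : FreeAlgebra K X => r) x) p = 0 := by
  obtain ⟨S₀, h1, h2⟩ := Pool.Agent.H412.EqN.main K X q n m μ S
  exact ⟨S₀, h1, fun ω hω x hx h => h2 ω hω x hx h⟩

end Pool.Agent.Results.MP_0cf807_al.GradedTuples
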